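import Mathlib
import Pool.Agent.H79.UK

set_option autoImplicit false

universe u

open Pool.Agent.H79 Pool.Agent.H79.UKDefs MvPolynomial in
theorem Pool.Agent.Results.MP_8dd27d_al.Aniso.result (K : Type) [Field K] (a : K)
    (ha : ¬ IsSquare a) :
    UnivKoszul (Ideal.span {X 0 * X 1, X 1 ^ 2 + C a * X 0 ^ 2} : Ideal (MvPolynomial (Fin 2) K)) ∧
    ¬ GQuadratic.{u}
      (Ideal.span {X 0 * X 1, X 1 ^ 2 + C a * X 0 ^ 2} : Ideal (MvPolynomial (Fin 2) K)) :=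
  ⟨UK.uk ha, UK.not_gq ha⟩
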